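import Pool.Agent.helper29.BNon
import Pool.Agent.helper29.BTensor
import Pool.Agent.helper29.BSep
import Pool.Agent.helper29.GNSRep
import Pool.Agent.helper29.PIS

/-!
`Z`-stable simple purely infinite C*-algebras which are not `𝒪_∞`-stable.

For every simple unital C*-algebra `Z` with a tracial state (such as the Jiang-Su algebra) there is
a unital simple purely infinite C*-algebra `B` with `B ⊗ Z ≅ B` and `B ⊗ 𝒪_∞` not isomorphic
to `B`.
-/

open TopologicalSpace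

universe u v

namespace Pool.Agent.Results.MP_37a859_an.NotOInfinityStable

open Pool.Agent.helper29

theorem result (Z : Type u) [CStarAlgebra Z] (hZ : IsSimpleCStar Z)
    (hτ : ∃ τ : Z →ₗ[ℂ] ℂ, IsTracialState τ) :
    ∃ (B : Type u) (_ : CStarAlgebra B),
      IsSimpleCStar B ∧ IsPurelyInfinite B ∧ (SeparableSpace Z → SeparableSpace B) ∧
      TensorStable B Z ∧
      ∀ (O : Type v) [CStarAlgebra O], IsCuntzInfinity O → ¬ TensorStable B O := by
  obtain ⟨τ, hτ⟩ := hτ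
  obtain ⟨K, _, _, _, ρ, Ω, hΩ, htr⟩ := exists_tracial_rep hτ
  have hK : Nontrivial (K →L[ℂ] K) := by
    refine ⟨1, 0, fun h => ?_⟩
    have h1 : Ω = 0 := congrArg (fun f => f Ω) h
    rw [h1, norm_zero] at hΩ
    exact zero_ne_one hΩ
  have hρ : Function.Injective ρ := simple_injective hZ ρ
  have hconj : ∀ y : BB ρ Ω hΩ, y ≠ 0 → ∃ b : BB ρ Ω hΩ, star (y * b) * (y * b) = 1 := by
    intro y hy
    obtain ⟨b, hb, hyb⟩ := main_lemma ρ Ω hΩ hZ y.2 (fun h => hy (Subtype.ext h))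
    exact ⟨⟨b, hb⟩, Subtype.ext hyb⟩
  have hk : kE 0 ≠ kE 1 := fun h => zero_ne_one (kE.injective h)
  refine ⟨BB ρ Ω hΩ, inferInstance, simple_of_conj hconj, ?_, ?_, stable_Z ρ Ω hΩ hρ, ?_⟩
  · refine purelyInfinite_of_conj hconj (S := ⟨Sop _ (kE 0), Sop_mem ρ Ω hΩ (kE 0)⟩)
      (Subtype.ext (star_Sop_mul_Sop _)) ?_
    intro h
    have h1 : Sop (LInf Ω hΩ) (kE 0) * star (Sop (LInf Ω hΩ) (kE 0)) = 1 := congrArg Subtype.val h
    have h2 : Sop (LInf Ω hΩ) (kE 1) = 0 := by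
      rw [← one_mul (Sop (LInf Ω hΩ) (kE 1)), ← h1, mul_assoc, star_Sop_mul_Sop_ne hk, mul_zero]
    have h3 := star_Sop_mul_Sop (L := LInf Ω hΩ) (kE 1)
    rw [h2, mul_zero] at h3
    exact zero_ne_one h3
  · intro _
    exact separable_BB ρ Ω hΩ
  · intro O _ hO
    exact not_stable ρ Ω hΩ htr hO

end Pool.Agent.Results.MP_37a859_an.NotOInfinityStable
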